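import Pool.Agent.H43.G.R_seed8.H373R2.T7.BilE

set_option autoImplicit false

/-! The circle method in short windows: one window. -/

namespace Pool.Agent.TH823.MRS
open Finset
open Pool.Agent.H807R2.Dav (ee norm_ee ee_add ee_int ee_pow ee_zero)
open Pool.Agent.H373R2.T7 (orth sq_expand triple exI majorant_pow energy moment_energy)

/-- Parseval for a finite set of integers with distinct residues -/
lemma pars (I : Finset ℤ) (M : ℕ) (hM : 1 ≤ M) (hI : ∀ a ∈ I, ∀ b ∈ I, |a - b| < M) (G : ℤ → ℂ) (σ : ℤ) (hσ : σ = 1 ∨ σ = -1) :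
    ∑ t ∈ range M, ‖∑ a ∈ I, G a * ee ((t : ℝ) * (((σ * a : ℤ) : ℝ) / M))‖ ^ 2 = M * ∑ a ∈ I, ‖G a‖ ^ 2 := by
  have h1 := sq_expand I G (fun a => σ * a) M hM
  have h2 : ∑ i ∈ I, ∑ j ∈ I, G i * (starRingEnd ℂ) (G j) * (if (M : ℤ) ∣ σ * i - σ * j then (M : ℂ) else 0) =
      ∑ i ∈ I, (M : ℂ) * ((‖G i‖ ^ 2 : ℝ) : ℂ) := by
    apply sum_congr rfl
    intro i hi
    rw [sum_eq_single i]
    · rw [sub_self, if_pos (dvd_zero _), Complex.mul_conj']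
      push_cast
      ring
    · intro j hj hne
      rw [if_neg, mul_zero]
      intro hd
      have h3 : (M : ℤ) ∣ i - j := by
        rcases hσ with h | h
        · rw [h] at hd; simpa using hd
        · rw [h] at hd
          have : (-1 : ℤ) * i - -1 * j = -(i - j) := by ring
          rw [this] at hd
          exact (dvd_neg).1 hd
      have := Int.eq_zero_of_abs_lt_dvd h3 (hI i hi j hj)
      apply hne
      omega
    · intro h; exact absurd hi h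
  rw [h2, ← mul_sum] at h1
  have h3 : (((∑ t ∈ range M, ‖∑ a ∈ I, G a * ee ((t : ℝ) * (((σ * a : ℤ) : ℝ) / M))‖ ^ 2 : ℝ)) : ℂ) =
      ((M * ∑ a ∈ I, ‖G a‖ ^ 2 : ℝ) : ℂ) := by
    rw [h1]
    push_cast
    rfl
  exact_mod_cast h3

/-- the Fourier identity in a window -/
lemma fid (I J : Finset ℤ) (M x : ℕ) (hM1 : 1 ≤ M) (F G : ℤ → ℂ) (c : ℕ → ℂ) (s : ℕ → ℤ)
    (hIJ : ∀ a ∈ I, ∀ m ∈ Icc 1 x, a + s m ∈ J) (hJ : ∀ a ∈ J, ∀ b ∈ J, |a - b| < M) :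
    (M : ℂ) * ∑ a ∈ I, ∑ m ∈ Icc 1 x, G a * c m * F (a + s m) =
      ∑ t ∈ range M, (∑ n ∈ J, F n * ee ((t : ℝ) * (((-1 * n : ℤ) : ℝ) / M))) *
        (∑ a ∈ I, G a * ee ((t : ℝ) * (((1 * a : ℤ) : ℝ) / M))) *
        (∑ m ∈ Icc 1 x, c m * ee ((t : ℝ) * ((s m : ℝ) / M))) := by
  have h1 : ∀ t ∈ range M, (∑ n ∈ J, F n * ee ((t : ℝ) * (((-1 * n : ℤ) : ℝ) / M))) *
        (∑ a ∈ I, G a * ee ((t : ℝ) * (((1 * a : ℤ) : ℝ) / M))) *
        (∑ m ∈ Icc 1 x, c m * ee ((t : ℝ) * ((s m : ℝ) / M))) = ∑ a ∈ I, ∑ m ∈ Icc 1 x, ∑ n ∈ J,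
      G a * c m * F n * ee ((t : ℝ) * (((a + s m - n : ℤ) : ℝ) / M)) := by
    intro t _
    rw [← triple]
    apply sum_congr rfl
    intro a _
    apply sum_congr rfl
    intro m _
    apply sum_congr rfl
    intro n _
    have h2 : ee ((t : ℝ) * (((a + s m - n : ℤ) : ℝ) / M)) =
        ee ((t : ℝ) * (((1 * a : ℤ) : ℝ) / M)) * ee ((t : ℝ) * (((-1 * n : ℤ) : ℝ) / M)) * ee ((t : ℝ) * ((s m : ℝ) / M)) := by
      rw [← ee_add, ← ee_add]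
      congr 1
      push_cast
      ring
    rw [h2]
    ring
  rw [sum_congr rfl h1]
  symm
  rw [sum_comm, mul_sum]
  apply sum_congr rfl
  intro a ha
  rw [sum_comm, mul_sum]
  apply sum_congr rfl
  intro m hm
  rw [sum_comm]
  have h2 : ∀ n ∈ J, ∑ t ∈ range M, G a * c m * F n * ee ((t : ℝ) * (((a + s m - n : ℤ) : ℝ) / M)) =
      if n = a + s m then (M : ℂ) * (G a * c m * F n) else 0 := by
    intro n hn
    rw [← mul_sum, orth M hM1]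
    by_cases h3 : n = a + s m
    · rw [if_pos h3, if_pos (by rw [h3]; simp)]
      ring
    · rw [if_neg h3, if_neg, mul_zero]
      intro hd
      apply h3
      have := Int.eq_zero_of_abs_lt_dvd hd (hJ _ (hIJ a ha m hm) n hn)
      omega
  rw [sum_congr rfl h2, sum_ite_eq', if_pos (hIJ a ha m hm)]

/-- the estimate in one window -/
lemma one_win (I J : Finset ℤ) (M x : ℕ) (hM1 : 1 ≤ M) (hx : 1 ≤ x) (F G : ℤ → ℂ) (c : ℕ → ℂ) (s : ℕ → ℤ)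
    (hIJ : ∀ a ∈ I, ∀ m ∈ Icc 1 x, a + s m ∈ J) (hJ : ∀ a ∈ J, ∀ b ∈ J, |a - b| < M) (hI : ∀ a ∈ I, ∀ b ∈ I, |a - b| < M)
    (hF : ∀ a, ‖F a‖ ≤ 1) (hG : ∀ a, ‖G a‖ ≤ 1) (hc : ∀ m, ‖c m‖ ≤ 1) (η : ℝ) (hη : 0 < η) (p : ℕ) :
    M * ‖∑ a ∈ I, ∑ m ∈ Icc 1 x, G a * c m * F (a + s m)‖ ≤
      η * x * (M * Real.sqrt (J.card * I.card)) +
      (I.card : ℝ) * x / η ^ (2 * p) * ∑ t ∈ range M, ‖∑ n ∈ J, F n * ee ((t : ℝ) * (((-1 * n : ℤ) : ℝ) / M))‖ *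
        (‖∑ m ∈ Icc 1 x, c m * ee ((t : ℝ) * ((s m : ℝ) / M))‖ / x) ^ (2 * p) := by
  have hM0 : (0 : ℝ) < M := by exact_mod_cast hM1
  have hx0 : (0 : ℝ) < x := by exact_mod_cast hx
  have hid := fid I J M x hM1 F G c s hIJ hJ
  set fh : ℕ → ℂ := fun t => ∑ n ∈ J, F n * ee ((t : ℝ) * (((-1 * n : ℤ) : ℝ) / M)) with hfh
  set Gh : ℕ → ℂ := fun t => ∑ a ∈ I, G a * ee ((t : ℝ) * (((1 * a : ℤ) : ℝ) / M)) with hGh
  set Sh : ℕ → ℂ := fun t => ∑ m ∈ Icc 1 x, c m * ee ((t : ℝ) * ((s m : ℝ) / M)) with hSh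
  have hGh1 : ∀ t, ‖Gh t‖ ≤ I.card := by
    intro t
    rw [hGh]
    refine (norm_sum_le _ _).trans ?_
    have : ∀ a ∈ I, ‖G a * ee ((t : ℝ) * (((1 * a : ℤ) : ℝ) / M))‖ ≤ 1 := by
      intro a _
      rw [norm_mul, norm_ee, mul_one]
      exact hG a
    refine (sum_le_sum this).trans ?_
    rw [sum_const, nsmul_eq_mul, mul_one]
  have hSh1 : ∀ t, ‖Sh t‖ ≤ x := by
    intro t
    rw [hSh]
    refine (norm_sum_le _ _).trans ?_
    have : ∀ m ∈ Icc 1 x, ‖c m * ee ((t : ℝ) * ((s m : ℝ) / M))‖ ≤ 1 := by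
      intro a _
      rw [norm_mul, norm_ee, mul_one]
      exact hc a
    refine (sum_le_sum this).trans ?_
    rw [sum_const, Nat.card_Icc, nsmul_eq_mul]
    simp
  have hSh2 : ∀ t, ‖Sh t‖ ≤ η * x + x * (‖Sh t‖ / x) ^ (2 * p) / η ^ (2 * p) := by
    intro t
    have hη2 : 0 < η ^ (2 * p) := by positivity
    rcases le_or_gt (‖Sh t‖) (η * x) with h | h
    · have : 0 ≤ x * (‖Sh t‖ / x) ^ (2 * p) / η ^ (2 * p) := by positivity
      linarith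
    · have h1 : η ≤ ‖Sh t‖ / x := by rw [le_div_iff₀ hx0]; exact h.le
      have h2 : η ^ (2 * p) ≤ (‖Sh t‖ / x) ^ (2 * p) := pow_le_pow_left₀ hη.le h1 _
      have h3 : (x : ℝ) ≤ x * (‖Sh t‖ / x) ^ (2 * p) / η ^ (2 * p) := by
        rw [le_div_iff₀ hη2]
        exact mul_le_mul_of_nonneg_left h2 hx0.le
      have h4 := hSh1 t
      have h5 : 0 ≤ η * x := by positivity
      linarith
  have hpt : ∀ t, ‖fh t * Gh t * Sh t‖ ≤ η * x * (‖fh t‖ * ‖Gh t‖) +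
      (I.card : ℝ) * x / η ^ (2 * p) * (‖fh t‖ * (‖Sh t‖ / x) ^ (2 * p)) := by
    intro t
    rw [norm_mul, norm_mul]
    have h2 : 0 ≤ ‖fh t‖ * (x * (‖Sh t‖ / x) ^ (2 * p) / η ^ (2 * p)) := by positivity
    calc ‖fh t‖ * ‖Gh t‖ * ‖Sh t‖ ≤ ‖fh t‖ * ‖Gh t‖ * (η * x + x * (‖Sh t‖ / x) ^ (2 * p) / η ^ (2 * p)) :=
          mul_le_mul_of_nonneg_left (hSh2 t) (by positivity)
      _ = η * x * (‖fh t‖ * ‖Gh t‖) + ‖Gh t‖ * (‖fh t‖ * (x * (‖Sh t‖ / x) ^ (2 * p) / η ^ (2 * p))) := by ring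
      _ ≤ η * x * (‖fh t‖ * ‖Gh t‖) + I.card * (‖fh t‖ * (x * (‖Sh t‖ / x) ^ (2 * p) / η ^ (2 * p))) := by
          apply add_le_add le_rfl
          exact mul_le_mul_of_nonneg_right (hGh1 t) h2
      _ = _ := by ring
  have hcs : ∑ t ∈ range M, ‖fh t‖ * ‖Gh t‖ ≤ M * Real.sqrt (J.card * I.card) := by
    have h1 := sum_mul_sq_le_sq_mul_sq (range M) (fun t => ‖fh t‖) (fun t => ‖Gh t‖)
    have hle : ∀ (K : Finset ℤ) (φ : ℤ → ℂ), (∀ a, ‖φ a‖ ≤ 1) → ∑ a ∈ K, ‖φ a‖ ^ 2 ≤ K.card := by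
      intro K φ hφ
      have h5 : ∀ a ∈ K, ‖φ a‖ ^ 2 ≤ 1 := fun a _ => pow_le_one₀ (norm_nonneg _) (hφ a)
      refine (sum_le_sum h5).trans ?_
      rw [sum_const, nsmul_eq_mul, mul_one]
    have h2 : ∑ t ∈ range M, ‖fh t‖ ^ 2 ≤ M * J.card := by
      have h3 := pars J M hM1 hJ F (-1) (Or.inr rfl)
      rw [hfh]
      simp only
      rw [h3]
      exact mul_le_mul_of_nonneg_left (hle J F hF) hM0.le
    have h3 : ∑ t ∈ range M, ‖Gh t‖ ^ 2 ≤ M * I.card := by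
      have h4 := pars I M hM1 hI G 1 (Or.inl rfl)
      rw [hGh]
      simp only
      rw [h4]
      exact mul_le_mul_of_nonneg_left (hle I G hG) hM0.le
    have h4 : (∑ t ∈ range M, ‖fh t‖ * ‖Gh t‖) ^ 2 ≤ (M * J.card) * (M * I.card) :=
      h1.trans (mul_le_mul h2 h3 (sum_nonneg fun _ _ => by positivity) (by positivity))
    have h5 : ((M : ℝ) * J.card) * (M * I.card) = (M : ℝ) ^ 2 * (J.card * I.card) := by ring
    rw [h5] at h4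
    have h6 := Real.sqrt_le_sqrt h4
    rw [Real.sqrt_sq (sum_nonneg fun _ _ => by positivity), Real.sqrt_mul (by positivity), Real.sqrt_sq hM0.le] at h6
    exact h6
  have e1 : (M : ℝ) * ‖∑ a ∈ I, ∑ m ∈ Icc 1 x, G a * c m * F (a + s m)‖ =
      ‖(M : ℂ) * ∑ a ∈ I, ∑ m ∈ Icc 1 x, G a * c m * F (a + s m)‖ := by
    rw [norm_mul, Complex.norm_natCast]
  rw [e1, hid]
  refine (norm_sum_le _ _).trans ((sum_le_sum fun t _ => hpt t).trans ?_)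
  rw [sum_add_distrib, ← mul_sum, ← mul_sum]
  apply add_le_add _ le_rfl
  exact mul_le_mul_of_nonneg_left hcs (by positivity)

end Pool.Agent.TH823.MRS
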