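import Pool.Agent.H43.G.R_seed8.TH823.MRS.Circ1

set_option autoImplicit false

/-! The circle method in short windows: the sum over the windows. -/

namespace Pool.Agent.TH823.MRS
open Finset
open Pool.Agent.H807R2.Dav (ee norm_ee ee_add ee_int ee_pow ee_zero)
open Pool.Agent.H373R2.T7 (orth sq_expand triple exI majorant_pow energy moment_energy)

/-- small exponential sums with slowly varying weights of bounded total variation -/
def ExpoSmall (h : ℕ → ℂ) : Prop := ∀ ε : ℝ, 0 < ε → ∀ A : ℝ, 0 ≤ A →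
    ∃ H₀ : ℝ, ∃ X₀ : ℕ, ∀ X : ℕ, X₀ ≤ X → ∀ H : ℝ, H₀ ≤ H → H ≤ X → ∀ T : ℕ → ℂ,
      (∀ n : ℕ, ‖T n‖ ≤ H) → (∀ n m : ℕ, ‖T n - T m‖ ≤ A * |(n : ℝ) - m|) → (∀ n : ℕ, 3 * X < n → T n = 0) →
      ∀ α : ℝ, ‖∑ n ∈ Icc 1 (3 * X), h n * ee ((n : ℝ) * α) * T n‖ ≤ ε * H * X

/-- phases -/
lemma phase (w : ℂ) : ∃ θ : ℂ, ‖θ‖ ≤ 1 ∧ θ * w = (‖w‖ : ℂ) := by
  refine ⟨(starRingEnd ℂ) w / ‖w‖, ?_, ?_⟩
  · simp only [norm_div, RCLike.norm_conj, Complex.norm_real, norm_norm]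
    exact div_self_le_one _
  · by_cases h0 : ‖w‖ = 0
    · rw [norm_eq_zero.1 h0]; simp
    · have h0' : ((‖w‖ : ℝ) : ℂ) ≠ 0 := by exact_mod_cast h0
      rw [div_mul_eq_mul_div, mul_comm, Complex.mul_conj', pow_two]
      field_simp

/-- moving sums are Lipschitz -/
lemma moving (θ : ℕ → ℂ) (hθ : ∀ z, ‖θ z‖ ≤ 1) (W : ℕ) (n m : ℕ) :
    ‖∑ z ∈ Ico n (n + W), θ z - ∑ z ∈ Ico m (m + W), θ z‖ ≤ 2 * |(n : ℝ) - m| := by
  have hL : ∀ a b : ℕ, ‖∑ z ∈ range a, θ z - ∑ z ∈ range b, θ z‖ ≤ |(a : ℝ) - b| := by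
    have h1 : ∀ a b : ℕ, a ≤ b → ‖∑ z ∈ range a, θ z - ∑ z ∈ range b, θ z‖ ≤ |(a : ℝ) - b| := by
      intro a b hab
      rw [← norm_neg, neg_sub, ← sum_Ico_eq_sub _ hab]
      refine (norm_sum_le _ _).trans ((sum_le_sum fun z _ => hθ z).trans ?_)
      rw [sum_const, Nat.card_Ico, nsmul_eq_mul, mul_one, Nat.cast_sub hab, abs_sub_comm]
      exact le_abs_self _
    intro a b
    rcases le_total a b with h | h
    · exact h1 a b h
    · rw [← norm_neg, neg_sub, abs_sub_comm]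
      exact h1 b a h
  rw [sum_Ico_eq_sub _ (by omega), sum_Ico_eq_sub _ (by omega)]
  have h2 := hL (n + W) (m + W)
  have h3 := hL m n
  have e1 : (((n + W : ℕ) : ℝ) - ((m + W : ℕ) : ℝ)) = n - m := by push_cast; ring
  rw [e1] at h2
  rw [abs_sub_comm] at h3
  calc ‖∑ z ∈ range (n + W), θ z - ∑ z ∈ range n, θ z - (∑ z ∈ range (m + W), θ z - ∑ z ∈ range m, θ z)‖ =
        ‖(∑ z ∈ range (n + W), θ z - ∑ z ∈ range (m + W), θ z) + (∑ z ∈ range m, θ z - ∑ z ∈ range n, θ z)‖ := by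
        congr 1; ring
    _ ≤ _ := (norm_add_le _ _).trans (by linarith)

/-- the first moment of the exponential sums in the windows -/
lemma win_l1 (h : ℕ → ℂ) (hE : ExpoSmall h) (ε : ℝ) (hε : 0 < ε) :
    ∃ W₀ X₀ : ℕ, ∀ X : ℕ, X₀ ≤ X → ∀ W : ℕ, W₀ ≤ W → W ≤ X → ∀ α : ℝ,
      ∑ z ∈ range (3 * X + 1), ‖∑ n ∈ Icc 1 (3 * X), if n ≤ z ∧ z < n + W then h n * ee ((n : ℝ) * α) else 0‖ ≤ ε * W * X := by
  obtain ⟨H₀, X₀, hX⟩ := hE ε hε 2 (by norm_num)
  refine ⟨⌈H₀⌉₊, X₀, fun X hX0 W hW1 hW2 α => ?_⟩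
  set S : ℕ → ℂ := fun z => ∑ n ∈ Icc 1 (3 * X), if n ≤ z ∧ z < n + W then h n * ee ((n : ℝ) * α) else 0 with hS
  choose θ0 hθ0 hθ1 using fun z => phase (S z)
  set θ : ℕ → ℂ := fun z => if z < 3 * X + 1 then θ0 z else 0 with hθ
  have hθb : ∀ z, ‖θ z‖ ≤ 1 := by
    intro z
    rw [hθ]
    simp only
    split_ifs
    · exact hθ0 z
    · simp
  have key := hX X hX0 W ((Nat.le_ceil _).trans (by exact_mod_cast hW1)) (by exact_mod_cast hW2)
    (fun n => ∑ z ∈ Ico n (n + W), θ z) (by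
      intro n
      refine (norm_sum_le _ _).trans ((sum_le_sum fun z _ => hθb z).trans ?_)
      rw [sum_const, Nat.card_Ico, nsmul_eq_mul, mul_one, Nat.add_sub_cancel_left]) (by
      intro n m
      exact moving θ hθb W n m) (by
      intro n hn
      apply sum_eq_zero
      intro z hz
      rw [mem_Ico] at hz
      rw [hθ]
      simp only
      rw [if_neg]
      omega) α
  refine le_trans (le_of_eq ?_) key
  have e1 : ((∑ z ∈ range (3 * X + 1), ‖S z‖ : ℝ) : ℂ) = ∑ n ∈ Icc 1 (3 * X), h n * ee ((n : ℝ) * α) * ∑ z ∈ Ico n (n + W), θ z := by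
    push_cast
    have e2 : ∀ z ∈ range (3 * X + 1), ((‖S z‖ : ℝ) : ℂ) =
        ∑ n ∈ Icc 1 (3 * X), if n ≤ z ∧ z < n + W then h n * ee ((n : ℝ) * α) * θ0 z else 0 := by
      intro z _
      rw [← hθ1 z, hS]
      simp only
      rw [mul_sum]
      apply sum_congr rfl
      intro n _
      split_ifs
      · ring
      · rw [mul_zero]
    rw [sum_congr rfl e2, sum_comm]
    apply sum_congr rfl
    intro n _
    have e3 : ∑ z ∈ Ico n (n + W), θ z = ∑ z ∈ range (3 * X + 1), if n ≤ z ∧ z < n + W then θ0 z else 0 := by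
      rw [hθ]
      simp only
      rw [← sum_filter, ← sum_filter]
      apply sum_congr _ fun _ _ => rfl
      ext z
      simp only [mem_filter, mem_Ico, mem_range]
      tauto
    rw [e3, mul_sum]
    apply sum_congr rfl
    intro z _
    split_ifs
    · rfl
    · rw [mul_zero]
  rw [← e1, Complex.norm_real, Real.norm_of_nonneg (sum_nonneg fun _ _ => norm_nonneg _)]

/-- the windows over the integers -/
lemma win_eq (h : ℕ → ℂ) (X W z : ℕ) (hz : z ≤ 3 * X) (α : ℝ) :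
    ∑ n ∈ Ioc ((z : ℤ) - W) z, exI h n * ee ((n : ℝ) * α) =
      ∑ n ∈ Icc 1 (3 * X), if n ≤ z ∧ z < n + W then h n * ee ((n : ℝ) * α) else 0 := by
  rw [← sum_filter]
  have e1 : ∑ n ∈ Ioc ((z : ℤ) - W) z, exI h n * ee ((n : ℝ) * α) =
      ∑ n ∈ (Ioc ((z : ℤ) - W) z).filter (fun n => 1 ≤ n), h n.toNat * ee ((n : ℝ) * α) := by
    rw [sum_filter]
    apply sum_congr rfl
    intro n _
    unfold exI
    split_ifs
    · rfl
    · rw [zero_mul]
  rw [e1]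
  apply sum_nbij' (fun n : ℤ => n.toNat) (fun n : ℕ => (n : ℤ))
  · intro n hn
    simp only [mem_filter, mem_Ioc, mem_Icc] at hn ⊢
    omega
  · intro n hn
    simp only [mem_filter, mem_Ioc, mem_Icc] at hn ⊢
    omega
  · intro n hn
    simp only [mem_filter, mem_Ioc] at hn
    omega
  · intro n _
    simp
  · intro n hn
    simp only [mem_filter, mem_Ioc] at hn
    have : (n : ℝ) = ((n.toNat : ℕ) : ℝ) := by
      have h2 : (n.toNat : ℤ) = n := Int.toNat_of_nonneg (by omega)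
      exact_mod_cast h2.symm
    rw [this]

/-- covering by windows -/
lemma cover (φ : ℤ → ℂ) (N H Z : ℕ) (hφ : ∀ a : ℤ, ¬ (-(H : ℤ) < a ∧ a ≤ (N : ℤ)) → φ a = 0) (hZ : N + 2 * H ≤ Z) :
    ∑ z ∈ range Z, ∑ a ∈ Ioc ((z : ℤ) - 2 * H) (z - H), φ a = H * ∑ a ∈ Ioc (-(H : ℤ)) N, φ a := by
  have h1 : ∀ z ∈ range Z, ∑ a ∈ Ioc ((z : ℤ) - 2 * H) (z - H), φ a =
      ∑ a ∈ Ioc (-(H : ℤ)) N, if (z : ℤ) - 2 * H < a ∧ a ≤ z - H then φ a else 0 := by
    intro z _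
    rw [← sum_filter]
    have h2 : ∑ a ∈ Ioc ((z : ℤ) - 2 * H) (z - H), φ a = ∑ a ∈ (Ioc ((z : ℤ) - 2 * H) (z - H)).filter (fun a => -(H : ℤ) < a ∧ a ≤ (N : ℤ)), φ a := by
      rw [sum_filter]
      apply sum_congr rfl
      intro a _
      split_ifs with h3
      · rfl
      · exact hφ a h3
    rw [h2]
    apply sum_congr _ fun _ _ => rfl
    ext a
    simp only [mem_filter, mem_Ioc]
    tauto
  rw [sum_congr rfl h1, sum_comm, mul_sum]
  apply sum_congr rfl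
  intro a ha
  rw [mem_Ioc] at ha
  rw [← sum_filter, sum_const, nsmul_eq_mul]
  congr 1
  have h3 : (range Z).filter (fun z : ℕ => (z : ℤ) - 2 * H < a ∧ a ≤ z - H) = Ico ((a + H).toNat) ((a + H).toNat + H) := by
    ext z
    simp only [mem_filter, mem_range, mem_Ico]
    omega
  rw [h3, Nat.card_Ico]
  congr 1
  omega

/-- the first moment over a family of short shifts of nearly minimal energy -/
theorem l1_short (h : ℕ → ℂ) (hb : ∀ n, ‖h n‖ ≤ 1) (hE : ExpoSmall h) (p : ℕ) (C : ℝ) (hC : 0 ≤ C) (ε : ℝ) (hε : 0 < ε) :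
    ∃ H₀ N₀ : ℕ, ∀ N : ℕ, N₀ ≤ N → ∀ H : ℕ, H₀ ≤ H → H ≤ N → ∀ (x : ℕ) (s : ℕ → ℤ), (∀ m ∈ Icc 1 x, |s m| ≤ H) →
      (energy p x s : ℝ) * H ≤ C * (x : ℝ) ^ (2 * p) → ∀ G : ℤ → ℂ, (∀ a, ‖G a‖ ≤ 1) →
      ∑ m ∈ Icc 1 x, ‖∑ a ∈ Ioc (-(H : ℤ)) N, G a * exI h (a + s m)‖ ≤ ε * N * x := by
  set η : ℝ := ε / 40 with hη
  have hη0 : 0 < η := by positivity
  set ε' : ℝ := ε * η ^ (2 * p) / (18 * (C + 1)) with hε'
  have hε0 : 0 < ε' := by positivity
  obtain ⟨W₀, X₀, hW⟩ := win_l1 h hE ε' hε0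
  refine ⟨W₀ + 1, X₀ + 1, fun N hN H hH1 hH2 x s hs hen G hG => ?_⟩
  rcases Nat.eq_zero_or_pos x with hx | hx
  · rw [hx]; simp
  have hx0 : (0 : ℝ) < x := by exact_mod_cast hx
  have hN0 : (0 : ℝ) < N := by exact_mod_cast (by omega : 0 < N)
  have hH0 : (0 : ℝ) < H := by exact_mod_cast (by omega : 0 < H)
  set M : ℕ := (2 * p + 4) * H with hM
  have hM1 : 1 ≤ M := Nat.mul_pos (by omega) (by omega)
  have hM0 : (0 : ℝ) < M := by exact_mod_cast hM1
  have hMH : 4 * H ≤ M := Nat.mul_le_mul_right _ (by omega)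
  set S : ℕ → ℂ := fun m => ∑ a ∈ Ioc (-(H : ℤ)) N, G a * exI h (a + s m) with hS
  choose c hc0 hc1 using fun m => phase (S m)
  set Gz : ℤ → ℂ := fun a => if -(H : ℤ) < a ∧ a ≤ N then G a else 0 with hGz
  have hGzb : ∀ a, ‖Gz a‖ ≤ 1 := by
    intro a
    rw [hGz]
    simp only
    split_ifs
    · exact hG _
    · simp
  set F : ℤ → ℂ := exI h with hF
  have hFb : ∀ a, ‖F a‖ ≤ 1 := by
    intro a
    rw [hF]
    unfold exI
    split_ifs
    · exact hb _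
    · simp
  set φ : ℤ → ℂ := fun a => ∑ m ∈ Icc 1 x, Gz a * c m * F (a + s m) with hφ
  have hφ0 : ∀ a : ℤ, ¬ (-(H : ℤ) < a ∧ a ≤ (N : ℤ)) → φ a = 0 := by
    intro a ha
    rw [hφ]
    simp only
    apply sum_eq_zero
    intro m _
    rw [hGz]
    simp only
    rw [if_neg ha, zero_mul, zero_mul]
  have hsum : ∑ a ∈ Ioc (-(H : ℤ)) N, φ a = ((∑ m ∈ Icc 1 x, ‖S m‖ : ℝ) : ℂ) := by
    rw [hφ]
    simp only
    rw [sum_comm]
    push_cast
    apply sum_congr rfl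
    intro m _
    rw [← hc1 m, hS]
    simp only
    rw [mul_sum]
    apply sum_congr rfl
    intro n hn
    rw [mem_Ioc] at hn
    rw [hGz]
    simp only
    rw [if_pos hn]
    ring
  set Z : ℕ := 9 * N + 1 with hZ
  have hcov := cover φ N H Z hφ0 (by omega)
  rw [hsum] at hcov
  set Sh : ℕ → ℂ := fun t => ∑ m ∈ Icc 1 x, c m * ee ((t : ℝ) * ((s m : ℝ) / M)) with hSh
  set fh : ℕ → ℕ → ℂ := fun z t => ∑ n ∈ Ioc ((z : ℤ) - 3 * H) z, F n * ee ((t : ℝ) * (((-1 * n : ℤ) : ℝ) / M)) with hfh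
  have hwin : ∀ z ∈ range Z, M * ‖∑ a ∈ Ioc ((z : ℤ) - 2 * H) (z - H), φ a‖ ≤
      η * x * (M * (2 * H)) + (H : ℝ) * x / η ^ (2 * p) * ∑ t ∈ range M, ‖fh z t‖ * (‖Sh t‖ / x) ^ (2 * p) := by
    intro z _
    have h1 := one_win (Ioc ((z : ℤ) - 2 * H) (z - H)) (Ioc ((z : ℤ) - 3 * H) z) M x hM1 hx F Gz c s
      (by
        intro a ha m hm
        rw [mem_Ioc] at ha ⊢
        have := abs_le.1 (hs m hm)
        omega)
      (by
        intro a ha b hb'
        rw [mem_Ioc] at ha hb'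
        rw [abs_lt]
        omega)
      (by
        intro a ha b hb'
        rw [mem_Ioc] at ha hb'
        rw [abs_lt]
        omega) hFb hGzb hc0 η hη0 p
    have hc1 : (Ioc ((z : ℤ) - 2 * H) (z - H)).card = H := by
      rw [Int.card_Ioc]
      omega
    have hc2 : (Ioc ((z : ℤ) - 3 * H) z).card = 3 * H := by
      rw [Int.card_Ioc]
      omega
    rw [hc1, hc2] at h1
    refine h1.trans ?_
    apply add_le_add _ le_rfl
    apply mul_le_mul_of_nonneg_left _ (by positivity)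
    apply mul_le_mul_of_nonneg_left _ (by positivity)
    rw [Real.sqrt_le_left (by positivity)]
    push_cast
    nlinarith
  have hsw : ∀ t : ℕ, ∑ z ∈ range Z, ‖fh z t‖ ≤ ε' * (3 * H) * (3 * N) := by
    intro t
    have h1 := hW (3 * N) (by omega) (3 * H) (by omega) (by omega) (-(t : ℝ) / M)
    have h2 : 3 * (3 * N) + 1 = Z := by omega
    rw [h2] at h1
    push_cast at h1
    refine le_trans (le_of_eq ?_) h1
    apply sum_congr rfl
    intro z hz
    rw [mem_range] at hz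
    have h3 := win_eq h (3 * N) (3 * H) z (by omega) (-(t : ℝ) / M)
    rw [← h3, hfh]
    simp only
    congr 1
    push_cast
    apply sum_congr rfl
    intro n _
    congr 2
    ring
  have hmom : ∑ t ∈ range M, (‖Sh t‖ / x) ^ (2 * p) ≤ M * C / H := by
    have h1 := majorant_pow p x c hc0 s M hM1
    have h2 := moment_energy p x s M H hM1 hs (by
      rw [hM]
      exact Nat.mul_lt_mul_of_pos_right (by omega) (by omega))
    rw [h2] at h1
    have h3 : ∑ t ∈ range M, (‖Sh t‖ / x) ^ (2 * p) = (∑ t ∈ range M, ‖Sh t‖ ^ (2 * p)) / (x : ℝ) ^ (2 * p) := by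
      rw [sum_div]
      exact sum_congr rfl fun t _ => div_pow _ _ _
    rw [h3, div_le_iff₀ (by positivity)]
    refine h1.trans ?_
    have h4 : (M : ℝ) * C / H * (x : ℝ) ^ (2 * p) = M * (C * (x : ℝ) ^ (2 * p) / H) := by ring
    rw [h4]
    apply mul_le_mul_of_nonneg_left _ hM0.le
    rw [le_div_iff₀ hH0]
    exact hen
  have htot : (M : ℝ) * (H * ∑ m ∈ Icc 1 x, ‖S m‖) ≤
      Z * (η * x * (M * (2 * H))) + (H : ℝ) * x / η ^ (2 * p) * ((ε' * (3 * H) * (3 * N)) * (M * C / H)) := by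
    have h1 : (H : ℝ) * ∑ m ∈ Icc 1 x, ‖S m‖ = ‖∑ z ∈ range Z, ∑ a ∈ Ioc ((z : ℤ) - 2 * H) (z - H), φ a‖ := by
      rw [hcov, norm_mul, Complex.norm_natCast, Complex.norm_real, Real.norm_of_nonneg (sum_nonneg fun _ _ => norm_nonneg _)]
    rw [h1]
    refine (mul_le_mul_of_nonneg_left (norm_sum_le _ _) hM0.le).trans ?_
    rw [mul_sum]
    refine (sum_le_sum hwin).trans ?_
    rw [sum_add_distrib, sum_const, card_range, nsmul_eq_mul, ← mul_sum]
    apply add_le_add le_rfl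
    apply mul_le_mul_of_nonneg_left _ (by positivity)
    rw [sum_comm]
    have h2 : ∀ t ∈ range M, ∑ z ∈ range Z, ‖fh z t‖ * (‖Sh t‖ / x) ^ (2 * p) ≤ (ε' * (3 * H) * (3 * N)) * (‖Sh t‖ / x) ^ (2 * p) := by
      intro t _
      rw [← sum_mul]
      exact mul_le_mul_of_nonneg_right (hsw t) (by positivity)
    refine (sum_le_sum h2).trans ?_
    rw [← mul_sum]
    exact mul_le_mul_of_nonneg_left hmom (by positivity)
  have hZr : (Z : ℝ) ≤ 10 * N := by
    rw [hZ]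
    push_cast
    have : (1 : ℝ) ≤ N := by exact_mod_cast (by omega : 1 ≤ N)
    linarith
  have e1 : (H : ℝ) * x / η ^ (2 * p) * ((ε' * (3 * H) * (3 * N)) * (M * C / H)) = (M * H) * (x * N * ε * (C / (2 * (C + 1)))) := by
    rw [hε']
    field_simp
    ring
  have e2 : C / (2 * (C + 1)) ≤ 1 / 2 := by
    rw [div_le_div_iff₀ (by positivity) (by positivity)]
    linarith
  have h3 : (M : ℝ) * (H * ∑ m ∈ Icc 1 x, ‖S m‖) ≤ (M * H) * (ε * N * x) := by
    refine htot.trans ?_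
    rw [e1]
    calc (Z : ℝ) * (η * x * (M * (2 * H))) + (M * H) * (x * N * ε * (C / (2 * (C + 1)))) ≤
          (10 * N) * (η * x * (M * (2 * H))) + (M * H) * (x * N * ε * (1 / 2)) := by
          apply add_le_add
          · exact mul_le_mul_of_nonneg_right hZr (by positivity)
          · apply mul_le_mul_of_nonneg_left _ (by positivity)
            exact mul_le_mul_of_nonneg_left e2 (by positivity)
      _ = (M * H) * (ε * N * x) := by rw [hη]; ring
  rw [← mul_assoc] at h3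
  exact le_of_mul_le_mul_left h3 (by positivity)

end Pool.Agent.TH823.MRS
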